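import Mathlib

set_option autoImplicit false

/-!
# Equivariant Ehrhart theory: a polynomial `H*`-series which is not effective

The join of the unit square with a five-dimensional lattice simplex of normalized volume two is an
eight-dimensional lattice polytope.  Let the group of order two reflect the unit square.  The
`H*`-series is the polynomial `1 + ε t + (1 - ε) t² + ε t³ + t⁴`, where `ε` is the sign character;
the coefficient of `t²` has dimension `0` and trace `2` at the reflection, so it is not the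
character of a representation.
-/

namespace Pool.Agent.Results.MP_3885fd_co.PolynomialNotEffective

open scoped Pointwise

/-- The point of `ℝ^d` with the same coordinates as `x ∈ ℤ^d`. -/
def toReal {d : ℕ} (x : Fin d → ℤ) : Fin d → ℝ := fun i => (x i : ℝ)

/-- The convex hull in `ℝ^d` of a finite set of lattice points. -/
def hull {d : ℕ} (V : Finset (Fin d → ℤ)) : Set (Fin d → ℝ) :=
  convexHull ℝ (toReal '' (V : Set (Fin d → ℤ)))

/-- A `d`-dimensional lattice polytope in `ℝ^d` (the convex hull of the finite set `V` of points of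
`ℤ^d`), with an action of the group `G` on the lattice `ℤ^d` by the affine lattice automorphisms
`x ↦ ρ(g) x + τ(g)`, which map the polytope onto itself. -/
structure InvariantPolytope (G : Type) [Group G] (d : ℕ) where
  /-- the finite set of lattice points whose convex hull is the polytope -/
  V : Finset (Fin d → ℤ)
  /-- the polytope is `d`-dimensional -/
  full_dim : affineSpan ℝ (hull V) = ⊤
  /-- the linear parts, a homomorphism from `G` to `GL_d(ℤ)` -/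
  ρ : G →* Matrix (Fin d) (Fin d) ℤ
  /-- the translation parts -/
  τ : G → Fin d → ℤ
  /-- `x ↦ ρ(g) x + τ(g)` is an action -/
  τ_mul : ∀ g h, τ (g * h) = (ρ g).mulVec (τ h) + τ g
  /-- the polytope is mapped onto itself -/
  invariant : ∀ g,
    (fun x : Fin d → ℝ => ((ρ g).map (Int.cast : ℤ → ℝ)).mulVec x + toReal (τ g)) '' hull V = hull V

namespace InvariantPolytope

variable {G : Type} [Group G] {d : ℕ} (S : InvariantPolytope G d)

/-- `χ_{mP}(g)`: the number of lattice points of the dilate `mP` which are fixed by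
`x ↦ ρ(g) x + m τ(g)`. -/
noncomputable def permChar (m : ℕ) (g : G) : ℕ :=
  Nat.card {x : Fin d → ℤ // toReal x ∈ (m : ℝ) • hull S.V ∧ (S.ρ g).mulVec x + m • S.τ g = x}

/-- The equivariant `H*`-series, evaluated at `g`:
`(1 - t) det (I - t ρ(g)) ∑_m χ_{mP}(g) t^m`.  (`charpolyRev A = det (I - t A)`.) -/
noncomputable def HStar (g : G) : PowerSeries ℤ :=
  (1 - PowerSeries.X) * ((S.ρ g).charpolyRev : PowerSeries ℤ) *
    PowerSeries.mk fun m => (S.permChar m g : ℤ)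

/-- The `H*`-series is a polynomial: only finitely many of its coefficients (which are class
functions on `G`) are nonzero. -/
def IsPolynomial : Prop :=
  ∃ N : ℕ, ∀ i, N ≤ i → ∀ g, PowerSeries.coeff i (S.HStar g) = 0

/-- The `H*`-series is effective: each of its coefficients is the character of a (finite
dimensional complex) representation of `G`. -/
def IsEffective : Prop :=
  ∀ i : ℕ, ∃ (n : ℕ) (r : G →* Matrix (Fin n) (Fin n) ℂ),
    ∀ g, (r g).trace = ((PowerSeries.coeff i (S.HStar g) : ℤ) : ℂ)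

/-- `χ_{0P}` is the trivial character. -/
theorem permChar_zero (g : G) : S.permChar 0 g = 1 := by
  have hne : (hull S.V).Nonempty := by
    by_contra h
    rw [Set.not_nonempty_iff_eq_empty] at h
    have h2 := S.full_dim
    rw [h, AffineSubspace.span_empty] at h2
    exact (bot_ne_top (α := AffineSubspace ℝ (Fin d → ℝ))) h2
  unfold permChar
  rw [Nat.card_eq_one_iff_unique]
  have key : ∀ x : Fin d → ℤ, (toReal x ∈ ((0 : ℕ) : ℝ) • hull S.V ∧
      (S.ρ g).mulVec x + 0 • S.τ g = x) ↔ x = 0 := by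
    intro x
    rw [Nat.cast_zero, Set.zero_smul_set hne]
    constructor
    · rintro ⟨h, -⟩
      rw [Set.mem_zero] at h
      funext i
      have := congrFun h i
      simpa [toReal] using this
    · rintro rfl
      refine ⟨?_, by simp⟩
      rw [Set.mem_zero]
      funext i
      simp [toReal]
  refine ⟨⟨fun a b => Subtype.ext ?_⟩, ⟨⟨0, (key 0).2 rfl⟩⟩⟩
  rw [(key a.1).1 a.2, (key b.1).1 b.2]

end InvariantPolytope

/-! ### Generating functions -/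

/-- The generating function of a degree function. -/
noncomputable def gf {α : Type} (deg : α → ℕ) : PowerSeries ℤ :=
  PowerSeries.mk fun n => (Nat.card {a : α // deg a = n} : ℤ)

theorem gf_prod {α β : Type} (da : α → ℕ) (db : β → ℕ)
    (ha : ∀ n, Finite {a : α // da a = n}) (hb : ∀ n, Finite {b : β // db b = n}) :
    gf (fun p : α × β => da p.1 + db p.2) = gf da * gf db := by
  ext n
  rw [PowerSeries.coeff_mul]
  simp only [gf, PowerSeries.coeff_mk]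
  let e : {p : α × β // da p.1 + db p.2 = n} ≃
      Σ ij : Finset.HasAntidiagonal.antidiagonal n, {a : α // da a = ij.1.1} × {b : β // db b = ij.1.2} :=
    { toFun := fun p => ⟨⟨(da p.1.1, db p.1.2), Finset.HasAntidiagonal.mem_antidiagonal.2 p.2⟩,
        ⟨p.1.1, rfl⟩, ⟨p.1.2, rfl⟩⟩
      invFun := fun q => ⟨(q.2.1.1, q.2.2.1), by
        rw [q.2.1.2, q.2.2.2]; exact Finset.HasAntidiagonal.mem_antidiagonal.1 q.1.2⟩
      left_inv := fun p => rfl
      right_inv := by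
        rintro ⟨⟨⟨i, j⟩, hij⟩, ⟨a, ha⟩, ⟨b, hb⟩⟩
        dsimp only at ha hb
        subst ha hb
        rfl }
  have : ∀ ij : Finset.HasAntidiagonal.antidiagonal n,
      Finite ({a : α // da a = ij.1.1} × {b : β // db b = ij.1.2}) := fun ij => by
    have := ha ij.1.1
    have := hb ij.1.2
    infer_instance
  rw [Nat.card_congr e, Nat.card_sigma]
  push_cast
  rw [← Finset.sum_coe_sort (Finset.HasAntidiagonal.antidiagonal n)]
  refine Finset.sum_congr rfl fun ij _ => ?_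
  rw [Nat.card_prod]
  push_cast
  rfl

theorem finite_prod {α β : Type} (da : α → ℕ) (db : β → ℕ)
    (ha : ∀ n, Finite {a : α // da a = n}) (hb : ∀ n, Finite {b : β // db b = n}) (n : ℕ) :
    Finite {p : α × β // da p.1 + db p.2 = n} := by
  have : ∀ ij : Finset.HasAntidiagonal.antidiagonal n,
      Finite ({a : α // da a = ij.1.1} × {b : β // db b = ij.1.2}) := fun ij => by
    have := ha ij.1.1
    have := hb ij.1.2
    infer_instance
  let f : {p : α × β // da p.1 + db p.2 = n} →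
      Σ ij : Finset.HasAntidiagonal.antidiagonal n, {a : α // da a = ij.1.1} × {b : β // db b = ij.1.2} :=
    fun p => ⟨⟨(da p.1.1, db p.1.2), Finset.HasAntidiagonal.mem_antidiagonal.2 p.2⟩, ⟨p.1.1, rfl⟩, ⟨p.1.2, rfl⟩⟩
  refine Finite.of_injective f ?_
  rintro ⟨⟨a, b⟩, h⟩ ⟨⟨a', b'⟩, h'⟩ heq
  have h1 := congrArg (fun q => (q.2.1.1, q.2.2.1)) heq
  exact Subtype.ext h1

/-- The degree `c k` on the natural numbers. -/
theorem finite_nat (c : ℕ) (hc : 0 < c) (n : ℕ) : Finite {k : ℕ // c * k = n} := by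
  have : Subsingleton {k : ℕ // c * k = n} :=
    ⟨fun a b => Subtype.ext (Nat.eq_of_mul_eq_mul_left hc (a.2.trans b.2.symm))⟩
  infer_instance

theorem gf_nat (c : ℕ) (hc : 0 < c) :
    (1 - (PowerSeries.X : PowerSeries ℤ) ^ c) * gf (fun k : ℕ => c * k) = 1 := by
  have key : ∀ n, (Nat.card {k : ℕ // c * k = n} : ℤ) = if c ∣ n then 1 else 0 := by
    intro n
    split_ifs with h
    · obtain ⟨k, rfl⟩ := h
      have : Unique {j : ℕ // c * j = c * k} :=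
        { default := ⟨k, rfl⟩
          uniq := fun a => Subtype.ext (Nat.eq_of_mul_eq_mul_left hc a.2) }
      rw [Nat.card_unique]; rfl
    · have : IsEmpty {k : ℕ // c * k = n} := ⟨fun a => h ⟨a.1, a.2.symm⟩⟩
      simp
  ext n
  rw [sub_mul, one_mul, map_sub, PowerSeries.coeff_X_pow_mul', PowerSeries.coeff_one]
  simp only [gf, PowerSeries.coeff_mk, key]
  by_cases hn : c ≤ n
  · rw [if_pos hn, if_neg (by omega : ¬ n = 0)]
    have : c ∣ n ↔ c ∣ n - c := by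
      obtain ⟨k, rfl⟩ := Nat.exists_eq_add_of_le hn
      rw [Nat.add_sub_cancel_left]
      exact Nat.dvd_add_right (dvd_refl c)
    by_cases h : c ∣ n
    · rw [if_pos h, if_pos (this.1 h)]; ring
    · rw [if_neg h, if_neg (fun h' => h (this.2 h'))]; ring
  · rw [if_neg hn, sub_zero]
    by_cases h0 : n = 0
    · subst h0; simp
    · rw [if_neg h0, if_neg]
      intro h
      exact hn (Nat.le_of_dvd (Nat.pos_of_ne_zero h0) h)

/-- Generating function of the degree `c ε` on `{0, 1}`. -/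
theorem finite_two (c : ℕ) (n : ℕ) : Finite {k : Fin 2 // c * (k : ℕ) = n} := by
  infer_instance

theorem gf_two (c : ℕ) :
    gf (fun k : Fin 2 => c * (k : ℕ)) = 1 + (PowerSeries.X : PowerSeries ℤ) ^ c := by
  ext n
  rw [map_add, PowerSeries.coeff_one, PowerSeries.coeff_X_pow]
  simp only [gf, PowerSeries.coeff_mk]
  rw [Nat.card_eq_fintype_card, Fintype.card_subtype]
  have : ((Finset.univ.filter fun k : Fin 2 => c * (k : ℕ) = n).card : ℤ) =
      ∑ k : Fin 2, if c * (k : ℕ) = n then 1 else 0 := by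
    rw [Finset.card_filter]; push_cast; rfl
  rw [this, Fin.sum_univ_two]
  simp only [Fin.isValue, Fin.val_zero, mul_zero, Fin.val_one, mul_one]
  congr 1
  · by_cases h : n = 0
    · rw [if_pos h, if_pos h.symm]
    · rw [if_neg h, if_neg (fun h' => h h'.symm)]
  · by_cases h : n = c
    · rw [if_pos h, if_pos h.symm]
    · rw [if_neg h, if_neg (fun h' => h h'.symm)]

theorem gf_congr {α β : Type} (da : α → ℕ) (db : β → ℕ) (e : α ≃ β) (h : ∀ a, db (e a) = da a) :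
    gf da = gf db := by
  ext n
  simp only [gf, PowerSeries.coeff_mk]
  congr 1
  refine Nat.card_congr (e.subtypeEquiv fun a => ?_)
  rw [h]

/-! ### The cone over the simplex: `ℕ^6 × {0,1}` with degree `∑ n_i + 3 ε` -/

/-- the parameters of the lattice points in the cone over the simplex -/
abbrev A1 : Type := ((ℕ × ℕ) × (ℕ × ℕ)) × ((ℕ × ℕ) × Fin 2)

/-- the degree -/
def d1 (p : A1) : ℕ :=
  ((1 * p.1.1.1 + 1 * p.1.1.2) + (1 * p.1.2.1 + 1 * p.1.2.2)) +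
    ((1 * p.2.1.1 + 1 * p.2.1.2) + 3 * (p.2.2 : ℕ))

/-- the parameters of the lattice points in the cone over the square -/
abbrev A2 : Type := (ℕ × ℕ) × (ℕ × Fin 2)

/-- the degree -/
def d2 (p : A2) : ℕ := (1 * p.1.1 + 1 * p.1.2) + (1 * p.2.1 + 1 * (p.2.2 : ℕ))

/-- the parameters of the fixed lattice points in the cone over the square -/
abbrev A3 : Type := (ℕ × ℕ) × Fin 2

/-- the degree -/
def d3 (p : A3) : ℕ := (2 * p.1.1 + 2 * p.1.2) + 2 * (p.2 : ℕ)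

theorem fin_nn (c : ℕ) (hc : 0 < c) (n : ℕ) :
    Finite {p : ℕ × ℕ // c * p.1 + c * p.2 = n} :=
  finite_prod (fun k : ℕ => c * k) (fun k : ℕ => c * k) (finite_nat c hc) (finite_nat c hc) n

theorem gf_nn (c : ℕ) (hc : 0 < c) :
    (1 - (PowerSeries.X : PowerSeries ℤ) ^ c) ^ 2 * gf (fun p : ℕ × ℕ => c * p.1 + c * p.2) = 1 := by
  have h := gf_prod (fun k : ℕ => c * k) (fun k : ℕ => c * k) (finite_nat c hc) (finite_nat c hc)
  rw [h]
  linear_combination (gf_nat c hc) * ((1 - (PowerSeries.X : PowerSeries ℤ) ^ c) *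
    gf (fun k : ℕ => c * k) + 1)

theorem alg1 {R : Type*} [CommRing R] (x g : R) (h : (1 - x) ^ 2 * g = 1) :
    (1 - x) ^ 6 * (g * g * (g * (1 + x ^ 3))) = 1 + x ^ 3 := by
  have h6 : (1 - x) ^ 6 * (g * g * (g * (1 + x ^ 3))) =
      ((1 - x) ^ 2 * g) ^ 3 * (1 + x ^ 3) := by ring
  rw [h6, h, one_pow, one_mul]

theorem alg2 {R : Type*} [CommRing R] (x g f : R) (h : (1 - x) ^ 2 * g = 1)
    (h' : (1 - x) * f = 1) : (1 - x) ^ 3 * (g * (f * (1 + x))) = 1 + x := by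
  have h6 : (1 - x) ^ 3 * (g * (f * (1 + x))) =
      ((1 - x) ^ 2 * g) * ((1 - x) * f) * (1 + x) := by ring
  rw [h6, h, h', one_mul, one_mul]

theorem alg3 {R : Type*} [CommRing R] (x g : R) (h : (1 - x ^ 2) ^ 2 * g = 1) :
    (1 - x ^ 2) ^ 2 * (g * (1 + x ^ 2)) = 1 + x ^ 2 := by
  rw [← mul_assoc, h, one_mul]

theorem fin_d1a (n : ℕ) :
    Finite {p : (ℕ × ℕ) × (ℕ × ℕ) // (1 * p.1.1 + 1 * p.1.2) + (1 * p.2.1 + 1 * p.2.2) = n} :=
  finite_prod (fun p : ℕ × ℕ => 1 * p.1 + 1 * p.2) (fun p : ℕ × ℕ => 1 * p.1 + 1 * p.2)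
    (fin_nn 1 one_pos) (fin_nn 1 one_pos) n

theorem fin_d1b (n : ℕ) :
    Finite {p : (ℕ × ℕ) × Fin 2 // (1 * p.1.1 + 1 * p.1.2) + 3 * (p.2 : ℕ) = n} :=
  finite_prod (fun p : ℕ × ℕ => 1 * p.1 + 1 * p.2) (fun p : Fin 2 => 3 * (p : ℕ))
    (fin_nn 1 one_pos) (finite_two 3) n

theorem fin_d1 (n : ℕ) : Finite {p : A1 // d1 p = n} :=
  finite_prod (fun p : (ℕ × ℕ) × (ℕ × ℕ) => (1 * p.1.1 + 1 * p.1.2) + (1 * p.2.1 + 1 * p.2.2))
    (fun p : (ℕ × ℕ) × Fin 2 => (1 * p.1.1 + 1 * p.1.2) + 3 * (p.2 : ℕ)) fin_d1a fin_d1b n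

theorem gf_d1 : (1 - (PowerSeries.X : PowerSeries ℤ)) ^ 6 * gf d1 = 1 + PowerSeries.X ^ 3 := by
  have h1 : gf d1 = gf (fun p : (ℕ × ℕ) × (ℕ × ℕ) =>
      (1 * p.1.1 + 1 * p.1.2) + (1 * p.2.1 + 1 * p.2.2)) *
      gf (fun p : (ℕ × ℕ) × Fin 2 => (1 * p.1.1 + 1 * p.1.2) + 3 * (p.2 : ℕ)) :=
    gf_prod _ _ fin_d1a fin_d1b
  have h2 : gf (fun p : (ℕ × ℕ) × (ℕ × ℕ) =>
      (1 * p.1.1 + 1 * p.1.2) + (1 * p.2.1 + 1 * p.2.2)) =
      gf (fun p : ℕ × ℕ => 1 * p.1 + 1 * p.2) * gf (fun p : ℕ × ℕ => 1 * p.1 + 1 * p.2) :=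
    gf_prod _ _ (fin_nn 1 one_pos) (fin_nn 1 one_pos)
  have h3 : gf (fun p : (ℕ × ℕ) × Fin 2 => (1 * p.1.1 + 1 * p.1.2) + 3 * (p.2 : ℕ)) =
      gf (fun p : ℕ × ℕ => 1 * p.1 + 1 * p.2) * gf (fun p : Fin 2 => 3 * (p : ℕ)) :=
    gf_prod _ _ (fin_nn 1 one_pos) (finite_two 3)
  have h4 := gf_nn 1 one_pos
  rw [pow_one] at h4
  rw [h1, h2, h3, gf_two 3]
  exact alg1 _ _ h4

theorem fin_d2b (n : ℕ) : Finite {p : ℕ × Fin 2 // 1 * p.1 + 1 * (p.2 : ℕ) = n} :=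
  finite_prod (fun p : ℕ => 1 * p) (fun p : Fin 2 => 1 * (p : ℕ))
    (finite_nat 1 one_pos) (finite_two 1) n

theorem fin_d2 (n : ℕ) : Finite {p : A2 // d2 p = n} :=
  finite_prod (fun p : ℕ × ℕ => 1 * p.1 + 1 * p.2)
    (fun p : ℕ × Fin 2 => 1 * p.1 + 1 * (p.2 : ℕ)) (fin_nn 1 one_pos) fin_d2b n

theorem gf_d2 : (1 - (PowerSeries.X : PowerSeries ℤ)) ^ 3 * gf d2 = 1 + PowerSeries.X := by
  have h1 : gf d2 = gf (fun p : ℕ × ℕ => 1 * p.1 + 1 * p.2) *
      gf (fun p : ℕ × Fin 2 => 1 * p.1 + 1 * (p.2 : ℕ)) :=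
    gf_prod _ _ (fin_nn 1 one_pos) fin_d2b
  have h2 : gf (fun p : ℕ × Fin 2 => 1 * p.1 + 1 * (p.2 : ℕ)) =
      gf (fun p : ℕ => 1 * p) * gf (fun p : Fin 2 => 1 * (p : ℕ)) :=
    gf_prod _ _ (finite_nat 1 one_pos) (finite_two 1)
  have h4 := gf_nn 1 one_pos
  have h5 := gf_nat 1 one_pos
  rw [pow_one] at h4 h5
  rw [h1, h2, gf_two 1, pow_one]
  exact alg2 _ _ _ h4 h5

theorem fin_d3 (n : ℕ) : Finite {p : A3 // d3 p = n} :=
  finite_prod (fun p : ℕ × ℕ => 2 * p.1 + 2 * p.2) (fun p : Fin 2 => 2 * (p : ℕ))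
    (fin_nn 2 two_pos) (finite_two 2) n

theorem gf_d3 : (1 - (PowerSeries.X : PowerSeries ℤ) ^ 2) ^ 2 * gf d3 = 1 + PowerSeries.X ^ 2 := by
  have h1 : gf d3 = gf (fun p : ℕ × ℕ => 2 * p.1 + 2 * p.2) *
      gf (fun p : Fin 2 => 2 * (p : ℕ)) :=
    gf_prod _ _ (fin_nn 2 two_pos) (finite_two 2)
  have h4 := gf_nn 2 two_pos
  rw [h1, gf_two 2]
  exact alg3 _ _ h4

/-! ### The polytope -/

/-- The ten vertices: the unit square in the coordinates `0, 1`, at height `1` in the coordinate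
`7`; the simplex in the coordinates `2, …, 6`, at height `0` in the coordinate `7`. -/
def vert : Fin 10 → Fin 8 → ℤ :=
  ![![0, 0, 0, 0, 0, 0, 0, 1], ![1, 0, 0, 0, 0, 0, 0, 1], ![0, 1, 0, 0, 0, 0, 0, 1],
    ![1, 1, 0, 0, 0, 0, 0, 1], ![0, 0, 0, 0, 0, 0, 0, 0], ![0, 0, 1, 0, 0, 0, 0, 0],
    ![0, 0, 0, 1, 0, 0, 0, 0], ![0, 0, 0, 0, 1, 0, 0, 0], ![0, 0, 0, 0, 0, 1, 0, 0],
    ![0, 0, 1, 1, 1, 1, 2, 0]]

/-- The set of vertices. -/
def verts : Finset (Fin 8 → ℤ) := Finset.univ.image vert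

/-- The inequalities for the dilate `mP`. -/
def Ineq (m : ℝ) (z : Fin 8 → ℝ) : Prop :=
  0 ≤ z 0 ∧ z 0 ≤ z 7 ∧ 0 ≤ z 1 ∧ z 1 ≤ z 7 ∧ 0 ≤ z 6 ∧ z 6 ≤ 2 * z 2 ∧ z 6 ≤ 2 * z 3 ∧
    z 6 ≤ 2 * z 4 ∧ z 6 ≤ 2 * z 5 ∧ 2 * (z 2 + z 3 + z 4 + z 5) - 3 * z 6 ≤ 2 * (m - z 7)

theorem hull_verts : hull verts = {z | Ineq 1 z} := by
  apply Set.Subset.antisymm
  · apply convexHull_min
    · rintro _ ⟨v, hv, rfl⟩
      rw [Finset.mem_coe, verts, Finset.mem_image] at hv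
      obtain ⟨i, -, rfl⟩ := hv
      fin_cases i <;> (simp [Ineq, vert, toReal]; try norm_num)
    · intro x hx y hy a b ha hb hab
      obtain ⟨x0, x1, x2, x3, x4, x5, x6, x7, x8, x9⟩ := hx
      obtain ⟨y0, y1, y2, y3, y4, y5, y6, y7, y8, y9⟩ := hy
      have hb' : b = 1 - a := by linarith
      simp only [Ineq, Set.mem_ofPred_eq, Pi.add_apply, Pi.smul_apply, smul_eq_mul]
      refine ⟨?_, ?_, ?_, ?_, ?_, ?_, ?_, ?_, ?_, ?_⟩
      · nlinarith [mul_le_mul_of_nonneg_left x0 ha, mul_le_mul_of_nonneg_left y0 hb]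
      · nlinarith [mul_le_mul_of_nonneg_left x1 ha, mul_le_mul_of_nonneg_left y1 hb]
      · nlinarith [mul_le_mul_of_nonneg_left x2 ha, mul_le_mul_of_nonneg_left y2 hb]
      · nlinarith [mul_le_mul_of_nonneg_left x3 ha, mul_le_mul_of_nonneg_left y3 hb]
      · nlinarith [mul_le_mul_of_nonneg_left x4 ha, mul_le_mul_of_nonneg_left y4 hb]
      · nlinarith [mul_le_mul_of_nonneg_left x5 ha, mul_le_mul_of_nonneg_left y5 hb]
      · nlinarith [mul_le_mul_of_nonneg_left x6 ha, mul_le_mul_of_nonneg_left y6 hb]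
      · nlinarith [mul_le_mul_of_nonneg_left x7 ha, mul_le_mul_of_nonneg_left y7 hb]
      · nlinarith [mul_le_mul_of_nonneg_left x8 ha, mul_le_mul_of_nonneg_left y8 hb]
      · nlinarith [mul_le_mul_of_nonneg_left x9 ha, mul_le_mul_of_nonneg_left y9 hb]
  · rintro z ⟨h0, h1, h2, h3, h4, h5, h6, h7, h8, h9⟩
    have hmem : ∀ i, toReal (vert i) ∈ hull verts := fun i =>
      subset_convexHull ℝ _ ⟨vert i, by simp [verts], rfl⟩
    obtain ⟨w, hw0, hw1, hw⟩ : ∃ w : Fin 10 → ℝ, (∀ i, 0 ≤ w i) ∧ ∑ i, w i = 1 ∧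
        z = ∑ i, w i • toReal (vert i) := by
      rcases le_total (z 0) (z 1) with h | h
      · refine ⟨![z 7 - z 1, 0, z 1 - z 0, z 0,
          1 - z 7 - (z 2 + z 3 + z 4 + z 5) + 3 / 2 * z 6, z 2 - z 6 / 2, z 3 - z 6 / 2,
          z 4 - z 6 / 2, z 5 - z 6 / 2, z 6 / 2], ?_, ?_, ?_⟩
        · intro i
          fin_cases i <;> simp <;> linarith
        · simp [Fin.sum_univ_succ]
          ring
        · funext j
          fin_cases j <;> simp [Fin.sum_univ_succ, vert, toReal]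
      · refine ⟨![z 7 - z 0, z 0 - z 1, 0, z 1,
          1 - z 7 - (z 2 + z 3 + z 4 + z 5) + 3 / 2 * z 6, z 2 - z 6 / 2, z 3 - z 6 / 2,
          z 4 - z 6 / 2, z 5 - z 6 / 2, z 6 / 2], ?_, ?_, ?_⟩
        · intro i
          fin_cases i <;> simp <;> linarith
        · simp [Fin.sum_univ_succ]
          ring
        · funext j
          fin_cases j <;> simp [Fin.sum_univ_succ, vert, toReal]
    rw [hw]
    exact (convex_convexHull ℝ _).sum_mem (fun i _ => hw0 i) hw1 (fun i _ => hmem i)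

theorem mem_smul_hull (m : ℕ) (z : Fin 8 → ℝ) : z ∈ (m : ℝ) • hull verts ↔ Ineq m z := by
  rw [hull_verts]
  rcases Nat.eq_zero_or_pos m with rfl | hm
  · rw [Nat.cast_zero, Set.zero_smul_set ⟨0, by simp [Ineq]⟩, Set.mem_zero]
    constructor
    · rintro rfl
      simp [Ineq]
    · rintro ⟨h0, h1, h2, h3, h4, h5, h6, h7, h8, h9⟩
      funext j
      fin_cases j <;> simp <;> linarith
  · have hm' : (0 : ℝ) < m := by exact_mod_cast hm
    rw [Set.mem_smul_set]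
    constructor
    · rintro ⟨y, ⟨y0, y1, y2, y3, y4, y5, y6, y7, y8, y9⟩, rfl⟩
      simp only [Ineq, Pi.smul_apply, smul_eq_mul]
      refine ⟨?_, ?_, ?_, ?_, ?_, ?_, ?_, ?_, ?_, ?_⟩ <;> nlinarith
    · rintro ⟨h0, h1, h2, h3, h4, h5, h6, h7, h8, h9⟩
      refine ⟨(m : ℝ)⁻¹ • z, ?_, by rw [smul_smul, mul_inv_cancel₀ hm'.ne', one_smul]⟩
      have hi : (0 : ℝ) < (m : ℝ)⁻¹ := inv_pos.2 hm'
      have hi' : (m : ℝ)⁻¹ * m = 1 := inv_mul_cancel₀ hm'.ne'
      simp only [Ineq, Set.mem_ofPred_eq, Pi.smul_apply, smul_eq_mul]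
      refine ⟨?_, ?_, ?_, ?_, ?_, ?_, ?_, ?_, ?_, ?_⟩ <;> nlinarith

theorem span_verts : affineSpan ℝ (hull verts) = ⊤ := by
  have ho : IsOpen {z : Fin 8 → ℝ | 0 < z 0 ∧ z 0 < z 7 ∧ 0 < z 1 ∧ z 1 < z 7 ∧ 0 < z 6 ∧
      z 6 < 2 * z 2 ∧ z 6 < 2 * z 3 ∧ z 6 < 2 * z 4 ∧ z 6 < 2 * z 5 ∧
      2 * (z 2 + z 3 + z 4 + z 5) - 3 * z 6 < 2 * (1 - z 7)} := by
    refine IsOpen.and (isOpen_lt (by fun_prop) (by fun_prop)) ?_
    refine IsOpen.and (isOpen_lt (by fun_prop) (by fun_prop)) ?_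
    refine IsOpen.and (isOpen_lt (by fun_prop) (by fun_prop)) ?_
    refine IsOpen.and (isOpen_lt (by fun_prop) (by fun_prop)) ?_
    refine IsOpen.and (isOpen_lt (by fun_prop) (by fun_prop)) ?_
    refine IsOpen.and (isOpen_lt (by fun_prop) (by fun_prop)) ?_
    refine IsOpen.and (isOpen_lt (by fun_prop) (by fun_prop)) ?_
    refine IsOpen.and (isOpen_lt (by fun_prop) (by fun_prop)) ?_
    refine IsOpen.and (isOpen_lt (by fun_prop) (by fun_prop)) ?_
    exact isOpen_lt (by fun_prop) (by fun_prop)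
  have h := ho.affineSpan_eq_top ⟨![1 / 8, 1 / 8, 1 / 8, 1 / 8, 1 / 8, 1 / 8, 1 / 8, 1 / 4], by
    simp
    norm_num⟩
  rw [eq_top_iff, ← h]
  apply affineSpan_mono
  rw [hull_verts]
  rintro z ⟨h0, h1, h2, h3, h4, h5, h6, h7, h8, h9⟩
  exact ⟨h0.le, h1.le, h2.le, h3.le, h4.le, h5.le, h6.le, h7.le, h8.le, h9.le⟩

/-- The reflection `x₀ ↦ x₇ - x₀`. -/
def R : Matrix (Fin 8) (Fin 8) ℤ := fun i j =>
  if i = 0 then (if j = 0 then -1 else if j = 7 then 1 else 0) else if i = j then 1 else 0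

theorem R_mul_R : R * R = 1 := by decide +kernel

theorem R_mulVec (x : Fin 8 → ℤ) : R.mulVec x = Function.update x 0 (x 7 - x 0) := by
  funext i
  fin_cases i <;> simp [Matrix.mulVec, dotProduct, Fin.sum_univ_eight, R, Function.update]
  ring

theorem R_mulVec_real (x : Fin 8 → ℝ) :
    (R.map (Int.cast : ℤ → ℝ)).mulVec x = Function.update x 0 (x 7 - x 0) := by
  funext i
  fin_cases i <;> simp [Matrix.mulVec, dotProduct, Fin.sum_univ_eight, R, Function.update]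
  ring

/-- The linear action of the group `{1, -1}` of order two. -/
def rho : ℤˣ →* Matrix (Fin 8) (Fin 8) ℤ where
  toFun u := if u = 1 then 1 else R
  map_one' := if_pos rfl
  map_mul' := by
    intro a b
    rcases Int.units_eq_one_or a with rfl | rfl <;> rcases Int.units_eq_one_or b with rfl | rfl <;>
      simp [R_mul_R]

theorem rho_one : rho 1 = 1 := map_one rho

theorem rho_neg : rho (-1) = R := by
  change (if (-1 : ℤˣ) = 1 then 1 else R) = R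
  exact if_neg (by decide)

theorem toReal_zero : toReal (0 : Fin 8 → ℤ) = 0 := by
  funext i
  simp [toReal]

/-- The polytope with the action of the group of order two. -/
def P8 : InvariantPolytope ℤˣ 8 where
  V := verts
  full_dim := span_verts
  ρ := rho
  τ := fun _ => 0
  τ_mul := by intro g h; simp
  invariant := by
    intro g
    rcases Int.units_eq_one_or g with rfl | rfl
    · rw [rho_one, toReal_zero]
      have : (1 : Matrix (Fin 8) (Fin 8) ℤ).map (Int.cast : ℤ → ℝ) = 1 := by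
        rw [Matrix.map_one _ Int.cast_zero Int.cast_one]
      simp [this]
    · rw [rho_neg, toReal_zero, hull_verts]
      simp only [R_mulVec_real, add_zero]
      have key : ∀ z : Fin 8 → ℝ, Ineq 1 z → Ineq 1 (Function.update z 0 (z 7 - z 0)) := by
        rintro z ⟨h0, h1, h2, h3, h4, h5, h6, h7, h8, h9⟩
        simp only [Ineq, Function.update, Fin.isValue]
        refine ⟨?_, ?_, ?_, ?_, ?_, ?_, ?_, ?_, ?_, ?_⟩ <;> simp <;> linarith
      apply Set.Subset.antisymm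
      · rintro _ ⟨z, hz, rfl⟩
        exact key z hz
      · intro z hz
        refine ⟨_, key z hz, ?_⟩
        funext i
        fin_cases i <;> simp

/-! ### Counting lattice points -/

/-- The inequalities for the lattice points of the dilate `mP`. -/
def IneqZ (m : ℕ) (z : Fin 8 → ℤ) : Prop :=
  0 ≤ z 0 ∧ z 0 ≤ z 7 ∧ 0 ≤ z 1 ∧ z 1 ≤ z 7 ∧ 0 ≤ z 6 ∧ z 6 ≤ 2 * z 2 ∧ z 6 ≤ 2 * z 3 ∧
    z 6 ≤ 2 * z 4 ∧ z 6 ≤ 2 * z 5 ∧ 2 * (z 2 + z 3 + z 4 + z 5) - 3 * z 6 ≤ 2 * ((m : ℤ) - z 7)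

theorem ineq_toReal (m : ℕ) (x : Fin 8 → ℤ) : Ineq m (toReal x) ↔ IneqZ m x := by
  simp only [Ineq, IneqZ, toReal]
  norm_cast

/-- The lattice points of the cone over the polytope, in terms of the parameters. -/
def F1 (a : A2 × A1) : Fin 8 → ℤ :=
  ![if a.1.2.2 = 0 then (a.1.1.1 : ℤ) else a.1.1.1 + a.1.1.2 + 1,
    if a.1.2.2 = 0 then (a.1.1.1 : ℤ) + a.1.1.2 else a.1.1.1,
    (a.2.1.1.1 : ℤ) + a.2.2.1.1 + (a.2.2.2 : ℕ), (a.2.1.1.2 : ℤ) + a.2.2.1.1 + (a.2.2.2 : ℕ),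
    (a.2.1.2.1 : ℤ) + a.2.2.1.1 + (a.2.2.2 : ℕ), (a.2.1.2.2 : ℤ) + a.2.2.1.1 + (a.2.2.2 : ℕ),
    2 * (a.2.2.1.1 : ℤ) + (a.2.2.2 : ℕ),
    (a.1.1.1 : ℤ) + a.1.1.2 + a.1.2.1 + (a.1.2.2 : ℕ)]

/-- The fixed lattice points of the cone over the polytope, in terms of the parameters. -/
def F3 (a : A3 × A1) : Fin 8 → ℤ :=
  ![(a.1.1.1 : ℤ) + a.1.1.2 + (a.1.2 : ℕ), 2 * (a.1.1.2 : ℤ) + (a.1.2 : ℕ),
    (a.2.1.1.1 : ℤ) + a.2.2.1.1 + (a.2.2.2 : ℕ), (a.2.1.1.2 : ℤ) + a.2.2.1.1 + (a.2.2.2 : ℕ),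
    (a.2.1.2.1 : ℤ) + a.2.2.1.1 + (a.2.2.2 : ℕ), (a.2.1.2.2 : ℤ) + a.2.2.1.1 + (a.2.2.2 : ℕ),
    2 * (a.2.2.1.1 : ℤ) + (a.2.2.2 : ℕ),
    2 * (a.1.1.1 : ℤ) + 2 * a.1.1.2 + 2 * (a.1.2 : ℕ)]

theorem simplex_part {m : ℕ} {x : Fin 8 → ℤ} (hx : IneqZ m x) :
    ∃ (n1 n2 n3 n4 n5 n0 : ℕ) (dl : Fin 2), (n1 : ℤ) + n5 + (dl : ℕ) = x 2 ∧
      (n2 : ℤ) + n5 + (dl : ℕ) = x 3 ∧ (n3 : ℤ) + n5 + (dl : ℕ) = x 4 ∧
      (n4 : ℤ) + n5 + (dl : ℕ) = x 5 ∧ 2 * (n5 : ℤ) + (dl : ℕ) = x 6 ∧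
      (n1 : ℤ) + n2 + n3 + n4 + n5 + n0 + 3 * (dl : ℕ) = m - x 7 := by
  obtain ⟨-, -, -, -, h4, h5, h6, h7, h8, h9⟩ := hx
  obtain ⟨dl, hdl⟩ : ∃ e : Fin 2, ((e : ℕ) : ℤ) = x 6 % 2 :=
    ⟨⟨(x 6 % 2).toNat, by omega⟩, by change (((x 6 % 2).toNat : ℕ) : ℤ) = _; omega⟩
  obtain ⟨n5, hn5⟩ : ∃ n : ℕ, (n : ℤ) = x 6 / 2 := ⟨(x 6 / 2).toNat, by omega⟩
  have h6' : 2 * (n5 : ℤ) + (dl : ℕ) = x 6 := by omega
  have hd2 := dl.2
  obtain ⟨n1, hn1⟩ : ∃ n : ℕ, (n : ℤ) = x 2 - n5 - (dl : ℕ) :=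
    ⟨(x 2 - n5 - (dl : ℕ)).toNat, by omega⟩
  obtain ⟨n2, hn2⟩ : ∃ n : ℕ, (n : ℤ) = x 3 - n5 - (dl : ℕ) :=
    ⟨(x 3 - n5 - (dl : ℕ)).toNat, by omega⟩
  obtain ⟨n3, hn3⟩ : ∃ n : ℕ, (n : ℤ) = x 4 - n5 - (dl : ℕ) :=
    ⟨(x 4 - n5 - (dl : ℕ)).toNat, by omega⟩
  obtain ⟨n4, hn4⟩ : ∃ n : ℕ, (n : ℤ) = x 5 - n5 - (dl : ℕ) :=
    ⟨(x 5 - n5 - (dl : ℕ)).toNat, by omega⟩
  obtain ⟨n0, hn0⟩ : ∃ n : ℕ, (n : ℤ) = m - x 7 - (n1 + n2 + n3 + n4 + n5 + 3 * (dl : ℕ)) :=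
    ⟨((m : ℤ) - x 7 - (n1 + n2 + n3 + n4 + n5 + 3 * (dl : ℕ))).toNat, by omega⟩
  refine ⟨n1, n2, n3, n4, n5, n0, dl, ?_, ?_, ?_, ?_, h6', ?_⟩ <;> omega

theorem card_one (m : ℕ) :
    Nat.card {a : A2 × A1 // d2 a.1 + d1 a.2 = m} = Nat.card {x : Fin 8 → ℤ // IneqZ m x} := by
  have hF : ∀ a : A2 × A1, d2 a.1 + d1 a.2 = m → IneqZ m (F1 a) := by
    rintro ⟨⟨⟨p, q⟩, ⟨r, e⟩⟩, ⟨⟨⟨n1, n2⟩, ⟨n3, n4⟩⟩, ⟨⟨n5, n0⟩, dl⟩⟩⟩ h
    have he := e.2
    have hd := dl.2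
    simp only [d1, d2] at h
    simp only [IneqZ, F1, Matrix.cons_val]
    by_cases h0 : e = 0
    · subst h0
      simp only [Fin.val_zero, if_true] at h ⊢
      refine ⟨?_, ?_, ?_, ?_, ?_, ?_, ?_, ?_, ?_, ?_⟩ <;> omega
    · have h1 : (e : ℕ) = 1 := by
        have : (e : ℕ) ≠ 0 := fun h' => h0 (Fin.ext h')
        omega
      simp only [h0, if_false, h1] at h ⊢
      refine ⟨?_, ?_, ?_, ?_, ?_, ?_, ?_, ?_, ?_, ?_⟩ <;> omega
  refine Nat.card_eq_of_bijective (fun a => ⟨F1 a.1, hF a.1 a.2⟩) ⟨?_, ?_⟩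
  · rintro ⟨⟨⟨⟨p, q⟩, ⟨r, e⟩⟩, ⟨⟨⟨n1, n2⟩, ⟨n3, n4⟩⟩, ⟨⟨n5, n0⟩, dl⟩⟩⟩, h⟩
      ⟨⟨⟨⟨p', q'⟩, ⟨r', e'⟩⟩, ⟨⟨⟨n1', n2'⟩, ⟨n3', n4'⟩⟩, ⟨⟨n5', n0'⟩, dl'⟩⟩⟩, h'⟩ heq
    have heq' : F1 _ = F1 _ := congrArg Subtype.val heq
    simp only [d1, d2] at h h'
    have c0 := congrFun heq' 0
    have c1 := congrFun heq' 1
    have c2 := congrFun heq' 2
    have c3 := congrFun heq' 3
    have c4 := congrFun heq' 4
    have c5 := congrFun heq' 5
    have c6 := congrFun heq' 6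
    have c7 := congrFun heq' 7
    have he := e.2
    have he' := e'.2
    have hd := dl.2
    have hd' := dl'.2
    simp only [F1, Matrix.cons_val] at c0 c1 c2 c3 c4 c5 c6 c7
    have hee : (e : ℕ) = e' := by
      by_cases h0 : e = 0
      · by_cases h0' : e' = 0
        · rw [h0, h0']
        · rw [if_pos h0, if_neg h0'] at c0 c1
          omega
      · by_cases h0' : e' = 0
        · rw [if_neg h0, if_pos h0'] at c0 c1
          omega
        · have : (e : ℕ) ≠ 0 := fun h' => h0 (Fin.ext h')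
          have : (e' : ℕ) ≠ 0 := fun h' => h0' (Fin.ext h')
          omega
    have hee' : e = e' := Fin.ext hee
    subst hee'
    have hdd : (dl : ℕ) = dl' := by omega
    have hdd' : dl = dl' := Fin.ext hdd
    subst hdd'
    have : p = p' ∧ q = q' ∧ r = r' ∧ n1 = n1' ∧ n2 = n2' ∧ n3 = n3' ∧ n4 = n4' ∧ n5 = n5' ∧
        n0 = n0' := by
      by_cases h0 : e = 0
      · rw [if_pos h0, if_pos h0] at c0 c1
        refine ⟨?_, ?_, ?_, ?_, ?_, ?_, ?_, ?_, ?_⟩ <;> omega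
      · rw [if_neg h0, if_neg h0] at c0 c1
        refine ⟨?_, ?_, ?_, ?_, ?_, ?_, ?_, ?_, ?_⟩ <;> omega
    obtain ⟨rfl, rfl, rfl, rfl, rfl, rfl, rfl, rfl, rfl⟩ := this
    rfl
  · rintro ⟨x, hx⟩
    obtain ⟨n1, n2, n3, n4, n5, n0, dl, k1, k2, k3, k4, k5, k6⟩ := simplex_part hx
    obtain ⟨h0, h1, h2, h3, -, -, -, -, -, -⟩ := hx
    rcases le_or_gt (x 0) (x 1) with h | h
    · obtain ⟨p, hp⟩ : ∃ n : ℕ, (n : ℤ) = x 0 := ⟨(x 0).toNat, by omega⟩
      obtain ⟨q, hq⟩ : ∃ n : ℕ, (n : ℤ) = x 1 - x 0 := ⟨(x 1 - x 0).toNat, by omega⟩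
      obtain ⟨r, hr⟩ : ∃ n : ℕ, (n : ℤ) = x 7 - x 1 := ⟨(x 7 - x 1).toNat, by omega⟩
      refine ⟨⟨(((p, q), (r, 0)), (((n1, n2), (n3, n4)), ((n5, n0), dl))), ?_⟩, ?_⟩
      · simp only [d1, d2, Fin.val_zero]
        omega
      · apply Subtype.ext
        funext i
        fin_cases i
        · change (p : ℤ) = x 0; omega
        · change (p : ℤ) + q = x 1; omega
        · exact k1
        · exact k2
        · exact k3
        · exact k4
        · exact k5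
        · change (p : ℤ) + q + r + ((0 : Fin 2) : ℕ) = x 7
          rw [Fin.val_zero]; omega
    · obtain ⟨p, hp⟩ : ∃ n : ℕ, (n : ℤ) = x 1 := ⟨(x 1).toNat, by omega⟩
      obtain ⟨q, hq⟩ : ∃ n : ℕ, (n : ℤ) = x 0 - x 1 - 1 := ⟨(x 0 - x 1 - 1).toNat, by omega⟩
      obtain ⟨r, hr⟩ : ∃ n : ℕ, (n : ℤ) = x 7 - x 0 := ⟨(x 7 - x 0).toNat, by omega⟩
      refine ⟨⟨(((p, q), (r, 1)), (((n1, n2), (n3, n4)), ((n5, n0), dl))), ?_⟩, ?_⟩
      · simp only [d1, d2, Fin.val_one]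
        omega
      · apply Subtype.ext
        funext i
        fin_cases i
        · change (p : ℤ) + q + 1 = x 0; omega
        · change (p : ℤ) = x 1; omega
        · exact k1
        · exact k2
        · exact k3
        · exact k4
        · exact k5
        · change (p : ℤ) + q + r + ((1 : Fin 2) : ℕ) = x 7
          rw [Fin.val_one]; omega

theorem card_neg (m : ℕ) :
    Nat.card {a : A3 × A1 // d3 a.1 + d1 a.2 = m} =
      Nat.card {x : Fin 8 → ℤ // IneqZ m x ∧ x 7 = 2 * x 0} := by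
  have hF : ∀ a : A3 × A1, d3 a.1 + d1 a.2 = m → IneqZ m (F3 a) ∧ F3 a 7 = 2 * F3 a 0 := by
    rintro ⟨⟨⟨p, q⟩, e⟩, ⟨⟨⟨n1, n2⟩, ⟨n3, n4⟩⟩, ⟨⟨n5, n0⟩, dl⟩⟩⟩ h
    have he := e.2
    have hd := dl.2
    simp only [d1, d3] at h
    simp only [IneqZ, F3, Matrix.cons_val]
    refine ⟨⟨?_, ?_, ?_, ?_, ?_, ?_, ?_, ?_, ?_, ?_⟩, ?_⟩ <;> omega
  refine Nat.card_eq_of_bijective (fun a => ⟨F3 a.1, hF a.1 a.2⟩) ⟨?_, ?_⟩
  · rintro ⟨⟨⟨⟨p, q⟩, e⟩, ⟨⟨⟨n1, n2⟩, ⟨n3, n4⟩⟩, ⟨⟨n5, n0⟩, dl⟩⟩⟩, h⟩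
      ⟨⟨⟨⟨p', q'⟩, e'⟩, ⟨⟨⟨n1', n2'⟩, ⟨n3', n4'⟩⟩, ⟨⟨n5', n0'⟩, dl'⟩⟩⟩, h'⟩ heq
    have heq' : F3 _ = F3 _ := congrArg Subtype.val heq
    simp only [d1, d3] at h h'
    have c0 := congrFun heq' 0
    have c1 := congrFun heq' 1
    have c2 := congrFun heq' 2
    have c3 := congrFun heq' 3
    have c4 := congrFun heq' 4
    have c5 := congrFun heq' 5
    have c6 := congrFun heq' 6
    have c7 := congrFun heq' 7
    have he := e.2
    have he' := e'.2
    have hd := dl.2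
    have hd' := dl'.2
    simp only [F3, Matrix.cons_val] at c0 c1 c2 c3 c4 c5 c6 c7
    have hee : (e : ℕ) = e' := by omega
    have hee' : e = e' := Fin.ext hee
    subst hee'
    have hdd : (dl : ℕ) = dl' := by omega
    have hdd' : dl = dl' := Fin.ext hdd
    subst hdd'
    have : p = p' ∧ q = q' ∧ n1 = n1' ∧ n2 = n2' ∧ n3 = n3' ∧ n4 = n4' ∧ n5 = n5' ∧
        n0 = n0' := by
      refine ⟨?_, ?_, ?_, ?_, ?_, ?_, ?_, ?_⟩ <;> omega
    obtain ⟨rfl, rfl, rfl, rfl, rfl, rfl, rfl, rfl⟩ := this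
    rfl
  · rintro ⟨x, hx, hx7⟩
    obtain ⟨n1, n2, n3, n4, n5, n0, dl, k1, k2, k3, k4, k5, k6⟩ := simplex_part hx
    have hx' := hx
    obtain ⟨h0, h1, h2, h3, -, -, -, -, -, -⟩ := hx'
    obtain ⟨e, he⟩ : ∃ e : Fin 2, ((e : ℕ) : ℤ) = x 1 % 2 :=
      ⟨⟨(x 1 % 2).toNat, by omega⟩, by change (((x 1 % 2).toNat : ℕ) : ℤ) = _; omega⟩
    obtain ⟨q, hq⟩ : ∃ n : ℕ, (n : ℤ) = x 1 / 2 := ⟨(x 1 / 2).toNat, by omega⟩
    obtain ⟨p, hp⟩ : ∃ n : ℕ, (n : ℤ) = x 0 - q - (e : ℕ) :=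
      ⟨(x 0 - q - (e : ℕ)).toNat, by omega⟩
    refine ⟨⟨(((p, q), e), (((n1, n2), (n3, n4)), ((n5, n0), dl))), ?_⟩, ?_⟩
    · simp only [d1, d3]
      omega
    · apply Subtype.ext
      funext i
      fin_cases i
      · change (p : ℤ) + q + (e : ℕ) = x 0; omega
      · change 2 * (q : ℤ) + (e : ℕ) = x 1; omega
      · exact k1
      · exact k2
      · exact k3
      · exact k4
      · exact k5
      · change 2 * (p : ℤ) + 2 * q + 2 * (e : ℕ) = x 7; omega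

theorem permChar_one (m : ℕ) :
    P8.permChar m 1 = Nat.card {a : A2 × A1 // d2 a.1 + d1 a.2 = m} := by
  rw [card_one]
  refine Nat.card_congr (Equiv.subtypeEquivRight fun x => ?_)
  change (toReal x ∈ (m : ℝ) • hull verts ∧ (rho 1).mulVec x + m • 0 = x) ↔ _
  rw [mem_smul_hull, ineq_toReal, rho_one]
  simp

theorem permChar_neg (m : ℕ) :
    P8.permChar m (-1) = Nat.card {a : A3 × A1 // d3 a.1 + d1 a.2 = m} := by
  rw [card_neg]
  refine Nat.card_congr (Equiv.subtypeEquivRight fun x => ?_)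
  change (toReal x ∈ (m : ℝ) • hull verts ∧ (rho (-1)).mulVec x + m • 0 = x) ↔ _
  rw [mem_smul_hull, ineq_toReal, rho_neg, R_mulVec, smul_zero, add_zero]
  refine and_congr_right fun _ => ?_
  constructor
  · intro h
    have := congrFun h 0
    simp only [Function.update_self] at this
    omega
  · intro h
    rw [show x 7 - x 0 = x 0 by omega, Function.update_eq_self]

theorem mk_one : (PowerSeries.mk fun m => (P8.permChar m 1 : ℤ)) = gf d2 * gf d1 := by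
  rw [← gf_prod d2 d1 fin_d2 fin_d1]
  ext m
  simp only [gf, PowerSeries.coeff_mk, permChar_one]

theorem mk_neg : (PowerSeries.mk fun m => (P8.permChar m (-1) : ℤ)) = gf d3 * gf d1 := by
  rw [← gf_prod d3 d1 fin_d3 fin_d1]
  ext m
  simp only [gf, PowerSeries.coeff_mk, permChar_neg]

/-! ### The `H*`-series -/

theorem charpolyRev_one : (1 : Matrix (Fin 8) (Fin 8) ℤ).charpolyRev = (1 - Polynomial.X) ^ 8 := by
  unfold Matrix.charpolyRev
  have h : (1 - (Polynomial.X : Polynomial ℤ) • (1 : Matrix (Fin 8) (Fin 8) ℤ).map Polynomial.C) =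
      Matrix.diagonal fun _ => 1 - (Polynomial.X : Polynomial ℤ) := by
    rw [Matrix.map_one _ (map_zero _) (map_one _)]
    ext i j : 1
    by_cases hij : i = j
    · subst hij
      simp
    · simp [hij, Matrix.one_apply_ne]
  rw [h, Matrix.det_diagonal]
  simp

theorem charpolyRev_R : R.charpolyRev = (1 + Polynomial.X) * (1 - Polynomial.X) ^ 7 := by
  unfold Matrix.charpolyRev
  have h : (1 - (Polynomial.X : Polynomial ℤ) • R.map Polynomial.C).IsUpperTriangular := by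
    intro i j hij
    have hne : i ≠ j := ne_of_gt hij
    have hi : i ≠ 0 := by
      rintro rfl
      exact absurd hij (Fin.not_lt_zero _)
    simp [Matrix.one_apply_ne hne, R, hi, hne]
  rw [Matrix.det_of_isUpperTriangular h, Fin.prod_univ_eight]
  simp [R]
  ring

theorem alg4 {A : Type*} [CommRing A] (x g h : A) (h1 : (1 - x) ^ 3 * g = 1 + x)
    (h2 : (1 - x) ^ 6 * h = 1 + x ^ 3) :
    (1 - x) * (1 - x) ^ 8 * (g * h) = 1 + x + x ^ 3 + x ^ 4 := by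
  have : (1 - x) * (1 - x) ^ 8 * (g * h) = ((1 - x) ^ 3 * g) * ((1 - x) ^ 6 * h) := by ring
  rw [this, h1, h2]
  ring

theorem alg5 {A : Type*} [CommRing A] [IsDomain A] (x g h : A) (hx : 1 + x ≠ 0)
    (h1 : (1 - x ^ 2) ^ 2 * g = 1 + x ^ 2) (h2 : (1 - x) ^ 6 * h = 1 + x ^ 3) :
    (1 - x) * ((1 + x) * (1 - x) ^ 7) * (g * h) = 1 - x + 2 * x ^ 2 - x ^ 3 + x ^ 4 := by
  apply mul_left_cancel₀ hx
  have : (1 + x) * ((1 - x) * ((1 + x) * (1 - x) ^ 7) * (g * h)) =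
      ((1 - x ^ 2) ^ 2 * g) * ((1 - x) ^ 6 * h) := by ring
  rw [this, h1, h2]
  ring

theorem HStar_one : P8.HStar 1 =
    1 + PowerSeries.X + PowerSeries.X ^ 3 + PowerSeries.X ^ 4 := by
  have h : P8.HStar 1 = (1 - PowerSeries.X) * ((rho 1).charpolyRev : PowerSeries ℤ) *
    PowerSeries.mk fun m => (P8.permChar m 1 : ℤ) := rfl
  rw [h, mk_one, rho_one, charpolyRev_one]
  push_cast
  exact alg4 _ _ _ gf_d2 gf_d1

theorem HStar_neg : P8.HStar (-1) =
    1 - PowerSeries.X + 2 * PowerSeries.X ^ 2 - PowerSeries.X ^ 3 + PowerSeries.X ^ 4 := by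
  have h : P8.HStar (-1) = (1 - PowerSeries.X) * ((rho (-1)).charpolyRev : PowerSeries ℤ) *
    PowerSeries.mk fun m => (P8.permChar m (-1) : ℤ) := rfl
  rw [h, mk_neg, rho_neg, charpolyRev_R]
  push_cast
  refine alg5 _ _ _ ?_ gf_d3 gf_d1
  intro h0
  have := congrArg (PowerSeries.coeff (R := ℤ) 0) h0
  simp at this

/-- There is an eight-dimensional lattice polytope `S` with a (faithful, linear) action of the group
`{1, -1}` of order two, whose `H*`-series is a polynomial, with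
`H*(1) = 1 + t + t³ + t⁴` and `H*(-1) = 1 - t + 2 t² - t³ + t⁴`, and is not effective. -/
theorem result :
    ∃ S : InvariantPolytope ℤˣ 8, Function.Injective S.ρ ∧
      S.HStar 1 = 1 + PowerSeries.X + PowerSeries.X ^ 3 + PowerSeries.X ^ 4 ∧
      S.HStar (-1) =
        1 - PowerSeries.X + 2 * PowerSeries.X ^ 2 - PowerSeries.X ^ 3 + PowerSeries.X ^ 4 ∧
      S.IsPolynomial ∧ ¬ S.IsEffective := by
  refine ⟨P8, ?_, HStar_one, HStar_neg, ⟨5, ?_⟩, ?_⟩
  · intro a b hab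
    have hab' : rho a = rho b := hab
    have hR : R ≠ 1 := by
      intro h
      have := congrFun (congrFun h 0) 0
      simp [R] at this
    rcases Int.units_eq_one_or a with rfl | rfl <;> rcases Int.units_eq_one_or b with rfl | rfl
    · rfl
    · rw [rho_one, rho_neg] at hab'
      exact absurd hab'.symm hR
    · rw [rho_one, rho_neg] at hab'
      exact absurd hab' hR
    · rfl
  · intro i hi g
    rcases Int.units_eq_one_or g with rfl | rfl
    · rw [HStar_one]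
      simp only [map_add, PowerSeries.coeff_one, PowerSeries.coeff_X, PowerSeries.coeff_X_pow]
      rw [if_neg (by omega), if_neg (by omega), if_neg (by omega), if_neg (by omega)]
      ring
    · rw [HStar_neg]
      have h2 : (2 : PowerSeries ℤ) = PowerSeries.C (2 : ℤ) := by simp
      rw [h2]
      simp only [map_add, map_sub, PowerSeries.coeff_one, PowerSeries.coeff_X,
        PowerSeries.coeff_X_pow, PowerSeries.coeff_C_mul]
      rw [if_neg (by omega), if_neg (by omega), if_neg (by omega), if_neg (by omega),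
        if_neg (by omega)]
      ring
  · intro h
    obtain ⟨n, r, hr⟩ := h 2
    have h1 := hr 1
    have h2 := hr (-1)
    rw [HStar_one, map_one, Matrix.trace_one] at h1
    have hn : n = 0 := by
      simp only [map_add, PowerSeries.coeff_one, PowerSeries.coeff_X,
        PowerSeries.coeff_X_pow] at h1
      norm_num at h1
      exact h1
    subst hn
    rw [HStar_neg] at h2
    have h3 : (2 : PowerSeries ℤ) = PowerSeries.C (2 : ℤ) := by simp
    rw [h3] at h2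
    simp only [map_add, map_sub, PowerSeries.coeff_one, PowerSeries.coeff_X,
        PowerSeries.coeff_X_pow, PowerSeries.coeff_C_mul] at h2
    rw [Matrix.trace_eq_zero_of_isEmpty] at h2
    norm_num at h2

end Pool.Agent.Results.MP_3885fd_co.PolynomialNotEffective
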